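import Pool.Agent.Y568.FL.Main

open MeasureTheory
open scoped ENNReal

namespace Pool.Agent.Results.MP_3bca80_gt.MaximalHalfRange

/-- `v` lists the vertices of a regular simplex of edge length `√2`. -/
def IsRegularSimplex {V : Type*} [NormedAddCommGroup V] {n : ℕ} (v : Fin (n + 1) → V) : Prop :=
  ∀ i j, i ≠ j → dist (v i) (v j) = √2

/-- The span `W` of all differences of vertices lying in a common block. -/
def blockSpan {V : Type*} [NormedAddCommGroup V] [InnerProductSpace ℝ V] {n k : ℕ}
    (v : Fin (n + 1) → V) (p : Fin (n + 1) → Fin (k + 1)) : Submodule ℝ V :=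
  Submodule.span ℝ {x | ∃ i j, p i = p j ∧ x = v i - v j}

/-- The `d`-dimensional volume of the orthogonal projection of `K` onto the subspace `F`.
Here `μHE[d]` is Mathlib's `d`-dimensional Hausdorff measure, normalised so that it is Lebesgue
measure on `d`-dimensional Euclidean spaces, and `F.starProjection` is the orthogonal
projection onto `F`. -/
noncomputable def projVol {V : Type*} [NormedAddCommGroup V] [InnerProductSpace ℝ V]
    [FiniteDimensional ℝ V] [MeasurableSpace V] [BorelSpace V]
    (d : ℕ) (F : Submodule ℝ V) (K : Set V) : ℝ≥0∞ :=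
  μHE[d] (F.starProjection '' K)

/-- `p` assigns the `n + 1` vertices to `k + 1` blocks and every block has size `ℓ` or `ℓ + 1`,
where `ℓ` is the integer part of `(n + 1) / (k + 1)`. -/
def IsBalanced {n k : ℕ} (p : Fin (n + 1) → Fin (k + 1)) : Prop :=
  ∀ a, (Finset.univ.filter (fun i => p i = a)).card = (n + 1) / (k + 1) ∨
    (Finset.univ.filter (fun i => p i = a)).card = (n + 1) / (k + 1) + 1

/-- Filliman's second conjecture (maximal projections of the regular simplex) for all pairs
`(n, k)` with `1 ≤ k ≤ n ≤ 2 k + 1`.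

Let `Δ` be a regular simplex with `n + 1` vertices and edge length `√2` in an `n`-dimensional
Euclidean space, and let `1 ≤ k ≤ n`.

Every `(n - k)`-dimensional orthogonal projection of `Δ` has volume at most
`√2 ^ (n - k) / (n - k)!`. If `n ≤ 2 k + 1`, then this bound is attained by the projection onto the
span `W` of the differences inside the blocks of any balanced partition of the vertices into `k + 1`
blocks: `W` has dimension `n - k`, `vol (P_W Δ) = √2 ^ (n - k) / (n - k)!`, and so
`vol (P_F Δ) ≤ vol (P_W Δ)` for every `(n - k)`-dimensional subspace `F`. -/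
theorem result {V : Type*} [NormedAddCommGroup V] [InnerProductSpace ℝ V] [FiniteDimensional ℝ V]
    [MeasurableSpace V] [BorelSpace V] (n k : ℕ) (hV : Module.finrank ℝ V = n)
    (_hk : 1 ≤ k) (hkn : k ≤ n) (v : Fin (n + 1) → V) (hv : IsRegularSimplex v) :
    (∀ F : Submodule ℝ V, Module.finrank ℝ F = n - k →
      projVol (n - k) F (convexHull ℝ (Set.range v)) ≤
        ENNReal.ofReal (√2 ^ (n - k) / (n - k).factorial)) ∧
    (n ≤ 2 * k + 1 → ∀ p : Fin (n + 1) → Fin (k + 1), IsBalanced p →
      Module.finrank ℝ (blockSpan v p) = n - k ∧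
      projVol (n - k) (blockSpan v p) (convexHull ℝ (Set.range v)) =
        ENNReal.ofReal (√2 ^ (n - k) / (n - k).factorial) ∧
      ∀ F : Submodule ℝ V, Module.finrank ℝ F = n - k →
        projVol (n - k) F (convexHull ℝ (Set.range v)) ≤
          projVol (n - k) (blockSpan v p) (convexHull ℝ (Set.range v))) := by
  refine ⟨fun F hF => Pool.Agent.Y568.FL.proj_le hV v hv F hF, ?_⟩
  intro hn p hp
  obtain ⟨h1, h2⟩ := Pool.Agent.Y568.FL.proj_star hV hkn hn v hv p hp
  refine ⟨h1, h2, fun F hF => ?_⟩
  exact (Pool.Agent.Y568.FL.proj_le hV v hv F hF).trans_eq h2.symm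

end Pool.Agent.Results.MP_3bca80_gt.MaximalHalfRange
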